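import Mathlib
import Pool.Agent.W17.NF.Stm
import Pool.Agent.W52.AK.CNT

/-!
# Counting ideals: small radical, divisors, harmonic sum (NF-A4, NF-TAU)
-/

set_option autoImplicit false

namespace Pool.Agent.W548.NF

open NumberField IsDedekindDomain Finset UniqueFactorizationMonoid Pool.Agent.W17.NF
  Pool.Agent.W223.AK Pool.Agent.H691R3

variable {K : Type} [Field K] [NumberField K]

open Classical in
theorem finite_supp (I : Ideal (𝓞 K)) :
    (Function.support (fun v : Pr K => (normalizedFactors I).count v.asIdeal)).Finite := by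
  refine Set.Finite.subset (Set.Finite.preimage (f := fun v : Pr K => v.asIdeal) ?_
    (normalizedFactors I).toFinset.finite_toSet) ?_
  · intro v _ w _ h
    exact HeightOneSpectrum.ext h
  · intro v hv
    rw [Set.mem_preimage, Finset.mem_coe, Multiset.mem_toFinset]
    exact Multiset.count_ne_zero.1 hv

open Classical in
/-- The exponents of an ideal. -/
noncomputable def toIdl (I : Ideal (𝓞 K)) : Idl K :=
  Finsupp.ofSupportFinite (fun v => (normalizedFactors I).count v.asIdeal) (finite_supp I)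

open Classical in
theorem toIdl_apply (I : Ideal (𝓞 K)) (v : Pr K) :
    toIdl I v = (normalizedFactors I).count v.asIdeal := rfl

open Classical in
theorem sum_toIdl {I : Ideal (𝓞 K)} (hI : I ≠ ⊥) (f : Ideal (𝓞 K) → ℝ) :
    ∑ v ∈ (toIdl I).support, f v.asIdeal = ∑ p ∈ (normalizedFactors I).toFinset, f p := by
  refine Finset.sum_bij (fun v _ => v.asIdeal) ?_ ?_ ?_ (fun _ _ => rfl)
  · intro v hv
    rw [Finsupp.mem_support_iff, toIdl_apply] at hv
    rw [Multiset.mem_toFinset]
    exact Multiset.count_ne_zero.1 hv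
  · intro v _ w _ h
    exact HeightOneSpectrum.ext h
  · intro p hp
    rw [Multiset.mem_toFinset] at hp
    have hprime := prime_of_normalized_factor p hp
    refine ⟨⟨p, Ideal.isPrime_of_prime hprime, hprime.ne_zero⟩, ?_, rfl⟩
    rw [Finsupp.mem_support_iff, toIdl_apply]
    exact Multiset.count_ne_zero.2 hp

theorem absNorm_ne {I : Ideal (𝓞 K)} (hI : I ≠ ⊥) : (Ideal.absNorm I : ℝ) ≠ 0 := by
  rw [Nat.cast_ne_zero]
  intro h
  exact hI (Ideal.absNorm_eq_zero_iff.1 h)

theorem absNorm_pos {I : Ideal (𝓞 K)} (hI : I ≠ ⊥) : (0 : ℝ) < Ideal.absNorm I :=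
  lt_of_le_of_ne (Nat.cast_nonneg _) (absNorm_ne hI).symm

open Classical in
theorem len_toIdl {I : Ideal (𝓞 K)} (hI : I ≠ ⊥) : len (toIdl I) = Real.log (Ideal.absNorm I) := by
  unfold len
  have h1 : ∑ v ∈ (toIdl I).support, (toIdl I v : ℝ) * Real.log (Nv v) =
      ∑ p ∈ (normalizedFactors I).toFinset,
        ((normalizedFactors I).count p : ℝ) * Real.log (Ideal.absNorm p) :=
    sum_toIdl hI (fun p : Ideal (𝓞 K) =>
        ((normalizedFactors I).count p : ℝ) * Real.log (Ideal.absNorm p))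
  rw [h1]
  have h2 : I = ∏ p ∈ (normalizedFactors I).toFinset, p ^ (normalizedFactors I).count p := by
    rw [← Finset.prod_multiset_count]
    exact (associated_iff_eq.1 (prod_normalizedFactors hI)).symm
  conv_rhs => rw [h2]
  rw [map_prod, Nat.cast_prod, Real.log_prod]
  · refine Finset.sum_congr rfl fun p _ => ?_
    rw [map_pow, Nat.cast_pow, Real.log_pow]
  · intro p hp
    rw [Multiset.mem_toFinset] at hp
    have hprime := prime_of_normalized_factor p hp
    rw [map_pow, Nat.cast_pow]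
    exact pow_ne_zero _ (absNorm_ne hprime.ne_zero)

open Classical in
theorem radI_ne {I : Ideal (𝓞 K)} : radI I ≠ ⊥ := by
  unfold radI
  rw [← Ideal.zero_eq_bot, Finset.prod_ne_zero_iff]
  intro p hp
  exact (prime_of_normalized_factor p (Multiset.mem_toFinset.1 (by convert hp))).ne_zero

open Classical in
theorem rl_toIdl {I : Ideal (𝓞 K)} (hI : I ≠ ⊥) :
    rl (toIdl I) = Real.log (Ideal.absNorm (radI I)) := by
  unfold rl
  have h1 : ∑ v ∈ (toIdl I).support, Real.log (Nv v) =
      ∑ p ∈ (normalizedFactors I).toFinset, Real.log (Ideal.absNorm p) :=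
    sum_toIdl hI (fun p : Ideal (𝓞 K) => Real.log (Ideal.absNorm p))
  rw [h1]
  unfold radI
  rw [map_prod, Nat.cast_prod, Real.log_prod]
  · intro p hp
    have hp' : p ∈ normalizedFactors I := Multiset.mem_toFinset.1 (by convert hp)
    exact absNorm_ne (prime_of_normalized_factor p hp').ne_zero

open Classical in
theorem toIdl_inj {I J : Ideal (𝓞 K)} (hI : I ≠ ⊥) (hJ : J ≠ ⊥) (h : toIdl I = toIdl J) : I = J := by
  have h1 : normalizedFactors I = normalizedFactors J := by
    ext p
    by_cases hp : Prime p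
    · have h2 := DFunLike.congr_fun h ⟨p, Ideal.isPrime_of_prime hp, hp.ne_zero⟩
      rwa [toIdl_apply, toIdl_apply] at h2
    · rw [Multiset.count_eq_zero_of_notMem, Multiset.count_eq_zero_of_notMem]
      · exact fun h3 => hp (prime_of_normalized_factor p h3)
      · exact fun h3 => hp (prime_of_normalized_factor p h3)
  rw [← associated_iff_eq.1 (prod_normalizedFactors hI), h1,
    associated_iff_eq.1 (prod_normalizedFactors hJ)]

open Classical in
theorem toIdl_mul {I J : Ideal (𝓞 K)} (hI : I ≠ ⊥) (hJ : J ≠ ⊥) :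
    toIdl (I * J) = toIdl I + toIdl J := by
  ext v
  rw [Finsupp.add_apply, toIdl_apply, toIdl_apply, toIdl_apply, normalizedFactors_mul hI hJ,
    Multiset.count_add]

theorem one_le_absNorm {I : Ideal (𝓞 K)} (hI : I ≠ ⊥) : (1 : ℝ) ≤ Ideal.absNorm I := by
  have h1 := absNorm_pos hI
  have h2 : 0 < Ideal.absNorm I := by exact_mod_cast h1
  exact_mod_cast h2

variable (K)

theorem stmtA4 : StmtA4 K := by
  classical
  intro ε hε
  obtain ⟨D, hD, h⟩ := Pool.Agent.W52.AK.cnt (K := K) ε hε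
  refine ⟨D, hD, ?_⟩
  intro X R hX hR P hP
  rcases P.eq_empty_or_nonempty with h0 | ⟨I₀, hI₀⟩
  · rw [h0, Finset.card_empty, Nat.cast_zero]
    positivity
  have hR1 : 1 ≤ R := le_trans (one_le_absNorm radI_ne) (hP I₀ hI₀).2.2
  have hX1 : (1 : ℝ) ≤ X := by exact_mod_cast hX
  have h1 := h (Real.log X) (Real.log R) (P.image toIdl) (Real.log_nonneg hX1) ?_
  · rw [Finset.card_image_of_injOn (fun I hI J hJ hIJ => toIdl_inj (hP I hI).1 (hP J hJ).1 hIJ)] at h1
    refine h1.trans (le_of_eq ?_)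
    rw [Real.exp_add, Real.exp_log (by linarith), Real.rpow_def_of_pos (by linarith),
      mul_comm (Real.log (X : ℝ))]
    ring
  · intro a ha
    rw [Finset.mem_image] at ha
    obtain ⟨I, hI, rfl⟩ := ha
    obtain ⟨h2, h3, h4⟩ := hP I hI
    rw [rl_toIdl h2, len_toIdl h2]
    refine ⟨Real.log_le_log (absNorm_pos radI_ne) h4, Real.log_le_log (absNorm_pos h2) ?_⟩
    exact_mod_cast h3

theorem stmtTau : StmtTau K := by
  classical
  intro ε hε
  obtain ⟨D, hD, h⟩ := Pool.Agent.W52.AK.fac (K := K) 2 ε hε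
  refine ⟨D, hD, ?_⟩
  intro I hI P hP
  have hne : ∀ J ∈ P, J ≠ ⊥ := by
    intro J hJ h0
    have h1 := hP J hJ
    rw [h0] at h1
    exact hI (zero_dvd_iff.1 h1)
  choose! Q hQ using fun J (hJ : J ∈ P) => hP J hJ
  have hQne : ∀ J ∈ P, Q J ≠ ⊥ := by
    intro J hJ h0
    apply hI
    rw [hQ J hJ, h0]
    exact Ideal.mul_bot J
  have h1 := h (toIdl I) (P.image (fun J => ![toIdl J, toIdl (Q J)])) ?_
  · rw [Finset.card_image_of_injOn] at h1
    · refine h1.trans (le_of_eq ?_)
      rw [len_toIdl hI, Real.rpow_def_of_pos (absNorm_pos hI), mul_comm (Real.log _)]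
    · intro J hJ J' hJ' hJJ
      have h2 := congrFun hJJ 0
      exact toIdl_inj (hne J hJ) (hne J' hJ') h2
  · intro x hx
    rw [Finset.mem_image] at hx
    obtain ⟨J, hJ, rfl⟩ := hx
    rw [Fin.sum_univ_two]
    change toIdl J + toIdl (Q J) = toIdl I
    rw [← toIdl_mul (hne J hJ) (hQne J hJ), ← hQ J hJ]

theorem stmtInv : StmtInv K := by
  classical
  intro ε hε
  obtain ⟨D, hD, h⟩ := Pool.Agent.W52.AK.gcdsum (K := K) ε hε
  refine ⟨D, hD, ?_⟩
  intro X hX P hP
  have hX1 : (1 : ℝ) ≤ X := by exact_mod_cast hX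
  have h1 := h (Real.log X) (P.image toIdl) (Real.log_nonneg hX1) ?_
  · rw [Finset.sum_image (fun I hI J hJ hIJ => toIdl_inj (hP I hI).1 (hP J hJ).1 hIJ)] at h1
    have h2 : ∑ I ∈ P, (1 : ℝ) / (Ideal.absNorm I : ℝ) = ∑ I ∈ P, Real.exp (-len (toIdl I)) := by
      refine Finset.sum_congr rfl fun I hI => ?_
      rw [len_toIdl (hP I hI).1, Real.exp_neg, Real.exp_log (absNorm_pos (hP I hI).1), one_div]
    rw [h2]
    refine h1.trans (le_of_eq ?_)
    rw [Real.rpow_def_of_pos (by linarith), mul_comm (Real.log (X : ℝ))]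
  · intro a ha
    rw [Finset.mem_image] at ha
    obtain ⟨I, hI, rfl⟩ := ha
    obtain ⟨h2, h3⟩ := hP I hI
    rw [len_toIdl h2]
    refine Real.log_le_log (absNorm_pos h2) ?_
    exact_mod_cast h3

end Pool.Agent.W548.NF
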